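import Pool.Agent.Lib.MP_b5021c_nt.IfaceE2

/-!
# Board b5, row E2_DUS: if all factors are small, their exponents are independent
-/

set_option autoImplicit false

namespace Pool.Agent.B5.H57.Dus

open scoped LaurentPolynomial

variable {O : Type} [CommRing O] [IsDomain O] [IsPrincipalIdealRing O] [Coef O]
  {L : Type} [AddCommGroup L] [Module.Free ℤ L] [Module.Finite ℤ L]

theorem supp_mul (G H : AO O L) (a : L) (ha : a ∈ supp (G * H)) :
    ∃ x ∈ supp G, ∃ y ∈ supp H, x + y = a := by
  classical
  have h : a ∈ (G * H).coeff.support := Finsupp.mem_support_iff.mpr ha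
  obtain ⟨x, hx, y, hy, hxy⟩ :=
    Finset.mem_add.mp (AddMonoidAlgebra.support_coeff_mul_subset _ _ h)
  exact ⟨x, Finsupp.mem_support_iff.mp hx, y, Finsupp.mem_support_iff.mp hy, hxy⟩

theorem uniq (G H : AO O L) (x y : L)
    (h : ∀ a ∈ supp G, ∀ b ∈ supp H, a + b = x + y → a = x ∧ b = y) :
    (G * H).coeff (x + y) = G.coeff x * H.coeff y := by
  apply AddMonoidAlgebra.coeff_mul_add_of_uniqueAdd
  intro a b ha hb hab
  exact h a (Finsupp.mem_support_iff.mp ha) b (Finsupp.mem_support_iff.mp hb) hab

theorem split (sig : L →+ ℤ) (X Y : AO O L) (hX : ∀ a ∈ supp X, sig a = 0)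
    (hY : ∀ a ∈ supp Y, a ≠ 0 → 0 < sig a) (a : L) (ha : sig a = 0) :
    (X * Y).coeff a = X.coeff a * Y.coeff 0 := by
  have h := uniq X Y a 0 ?_
  · rwa [add_zero] at h
  · intro x hx y hy hxy
    rw [add_zero] at hxy
    have h1 : sig y = 0 := by
      have h2 := congrArg sig hxy
      rw [map_add, hX x hx, ha, zero_add] at h2
      exact h2
    have h3 : y = 0 := by
      by_contra h4
      have := hY y hy h4
      omega
    subst h3
    rw [add_zero] at hxy
    exact ⟨hxy, rfl⟩

theorem cst_mul_coeff (c : RO O) (X : AO O L) (a : L) :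
    (cst c * X).coeff a = c * X.coeff a := by
  have h := uniq (cst c) X 0 a ?_
  · rw [zero_add] at h
    rw [h]
    congr 1
    simp [cst]
  · intro x hx y _ hxy
    have h1 : x = 0 := by
      by_contra h2
      apply hx
      simp [cst, Finsupp.single_apply, Ne.symm h2]
    subst h1
    rw [zero_add, zero_add] at hxy
    exact ⟨rfl, hxy⟩

theorem supp_prod_ker {n : ℕ} (s : Finset (Fin n)) (G : Fin n → AO O L) (sig : L →+ ℤ)
    (h : ∀ i ∈ s, ∀ a ∈ supp (G i), sig a = 0) :
    ∀ a ∈ supp (∏ i ∈ s, G i), sig a = 0 := by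
  classical
  induction s using Finset.induction_on with
  | empty =>
    intro a ha
    rw [Finset.prod_empty] at ha
    have h1 : a = 0 := by
      by_contra h2
      apply ha
      rw [AddMonoidAlgebra.one_def]
      simp [Finsupp.single_apply, Ne.symm h2]
    rw [h1, map_zero]
  | insert i s hi ih =>
    intro a ha
    rw [Finset.prod_insert hi] at ha
    obtain ⟨x, hx, y, hy, hxy⟩ := supp_mul _ _ a ha
    rw [← hxy, map_add, h i (Finset.mem_insert_self i s) x hx,
      ih (fun k hk => h k (Finset.mem_insert_of_mem hk)) y hy, add_zero]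

theorem prod_two {n : ℕ} (s : Finset (Fin n)) (G : Fin n → AO O L) (b : Fin n → L)
    (lam : L →+ ℤ) (hs : ∀ i ∈ s, supp (G i) = {0, b i}) (hb : ∀ i ∈ s, 0 < lam (b i)) :
    (∏ i ∈ s, G i).coeff 0 ≠ 0 ∧ (∏ i ∈ s, G i).coeff (∑ i ∈ s, b i) ≠ 0 ∧
    ∀ a ∈ supp (∏ i ∈ s, G i), (a ≠ 0 → 0 < lam a) ∧
      (a ≠ ∑ i ∈ s, b i → lam a < lam (∑ i ∈ s, b i)) := by
  classical
  induction s using Finset.induction_on with
  | empty =>
    rw [Finset.prod_empty, Finset.sum_empty]
    have h1 : (1 : AO O L).coeff 0 ≠ 0 := by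
      rw [AddMonoidAlgebra.one_def]
      simp
    refine ⟨h1, h1, fun a ha => ?_⟩
    have h2 : a = 0 := by
      by_contra h2
      apply ha
      rw [AddMonoidAlgebra.one_def]
      simp [Finsupp.single_apply, Ne.symm h2]
    subst h2
    exact ⟨fun h => absurd rfl h, fun h => absurd rfl h⟩
  | insert i s hi ih =>
    obtain ⟨ih1, ih2, ih3⟩ := ih (fun k hk => hs k (Finset.mem_insert_of_mem hk))
      (fun k hk => hb k (Finset.mem_insert_of_mem hk))
    have hsi := hs i (Finset.mem_insert_self i s)
    have hbi := hb i (Finset.mem_insert_self i s)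
    have hG0 : (G i).coeff 0 ≠ 0 := by
      have : (0 : L) ∈ supp (G i) := by rw [hsi]; simp
      exact this
    have hGb : (G i).coeff (b i) ≠ 0 := by
      have : b i ∈ supp (G i) := by rw [hsi]; simp
      exact this
    have hx : ∀ x ∈ supp (G i), (x ≠ 0 → 0 < lam x) ∧ (x ≠ b i → lam x < lam (b i)) := by
      intro x hx
      rw [hsi] at hx
      rcases hx with rfl | hx
      · exact ⟨fun h => absurd rfl h, fun _ => by rw [map_zero]; exact hbi⟩
      · have hx' : x = b i := hx
        subst hx'
        exact ⟨fun _ => hbi, fun h => absurd rfl h⟩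
    rw [Finset.prod_insert hi, Finset.sum_insert hi]
    refine ⟨?_, ?_, ?_⟩
    · have h := uniq (G i) (∏ k ∈ s, G k) 0 0 ?_
      · rw [add_zero] at h
        rw [h]
        exact mul_ne_zero hG0 ih1
      · intro x hx1 y hy1 hxy
        rw [add_zero] at hxy
        have h1 := (hx x hx1).1
        have h2 := (ih3 y hy1).1
        have h3 : lam x + lam y = 0 := by rw [← map_add, hxy, map_zero]
        by_cases hx0 : x = 0
        · subst hx0
          rw [zero_add] at hxy
          exact ⟨rfl, hxy⟩
        · exfalso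
          have h4 := h1 hx0
          by_cases hy0 : y = 0
          · subst hy0
            rw [map_zero] at h3
            omega
          · have := h2 hy0
            omega
    · have h := uniq (G i) (∏ k ∈ s, G k) (b i) (∑ k ∈ s, b k) ?_
      · rw [h]
        exact mul_ne_zero hGb ih2
      · intro x hx1 y hy1 hxy
        have h1 := (hx x hx1).2
        have h2 := (ih3 y hy1).2
        have h3 : lam x + lam y = lam (b i) + lam (∑ k ∈ s, b k) := by
          rw [← map_add, hxy, map_add]
        by_cases hx0 : x = b i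
        · subst hx0
          exact ⟨rfl, add_left_cancel hxy⟩
        · exfalso
          have h4 := h1 hx0
          by_cases hy0 : y = ∑ k ∈ s, b k
          · rw [hy0] at h3
            omega
          · have := h2 hy0
            omega
    · intro a ha
      obtain ⟨x, hx1, y, hy1, hxy⟩ := supp_mul _ _ a ha
      have h1 := hx x hx1
      have h2 := ih3 y hy1
      have h3 : lam a = lam x + lam y := by rw [← hxy, map_add]
      constructor
      · intro ha0
        by_cases hx0 : x = 0
        · subst hx0
          have hy0 : y ≠ 0 := by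
            rintro rfl
            apply ha0
            rw [← hxy, add_zero]
          have := h2.1 hy0
          rw [map_zero] at h3
          omega
        · have h4 := h1.1 hx0
          by_cases hy0 : y = 0
          · subst hy0
            rw [map_zero] at h3
            omega
          · have := h2.1 hy0
            omega
      · intro ha0
        rw [map_add]
        by_cases hx0 : x = b i
        · subst hx0
          have hy0 : y ≠ ∑ k ∈ s, b k := by
            rintro rfl
            exact ha0 hxy.symm
          have := h2.2 hy0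
          omega
        · have h4 := h1.2 hx0
          by_cases hy0 : y = ∑ k ∈ s, b k
          · rw [hy0] at h3
            omega
          · have := h2.2 hy0
            omega

open Classical in
theorem dus' (hSm : SmallS) (hG0 : G0S) (hRF : RayFacS) (hRS : RaySpanS) (hTh : ThinS)
    (hH : HS) (hMi : MinS) : DusS := by
  intro O _ _ _ _ P L _ _ _ _ _ phi D S i0 eta h c n G hF hs
  obtain ⟨-, -, -, hww, hinj, hpos⟩ := hG0 O P L phi D S i0 eta h hF.cc
  obtain ⟨-, -, lam0, hlS, hl⟩ := hF.cc.ray
  have hlam : Pos (lam0.comp (incl (Ker (co phi i0)))) (cl (co phi i0) S h eta D) :=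
    hpos lam0 hlS hl
  set lam : Ker (co phi i0) →+ ℤ := lam0.comp (incl (Ker (co phi i0))) with hlamdef
  have hfull : ∀ i, Pos lam (G i) := fun i => (hF.full i lam hlam).2.1
  -- the shape of the factors
  have hsm := fun i => hSm O P L phi D S i0 eta h c n G hF i (hs i)
  choose b hb0 hbs e heq using fun i => (hsm i).2.1
  have hu : ∀ i, IsUnit ((G i).coeff 0) := fun i => (hsm i).1
  have hbl : ∀ i, 0 < lam (b i) := fun i => by
    refine hfull i (b i) ?_ (hb0 i)
    have h1 : b i ∈ supp (G i) := by rw [hbs i]; simp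
    exact Finsupp.mem_support_iff.mpr h1
  -- ports of the non-pure factors
  have hex : ∀ i, ∃ j : P, ¬ Pure phi S i0 (G i) → (j ∈ OO phi S ∧ phi (b i : L) j = 1 ∧
      ∀ k, k ≠ i → phi (b k : L) j = 0) := by
    intro i
    by_cases hp : Pure phi S i0 (G i)
    · obtain ⟨j⟩ : Nonempty P := ⟨i0⟩
      exact ⟨j, fun h => absurd hp h⟩
    · obtain ⟨b', j, e', hspt⟩ := (hsm i).2.2 hp
      refine ⟨j, fun _ => ⟨hspt.jO, ?_, ?_⟩⟩
      · have hb' : b' ≠ 0 := by
          rintro rfl
          have h1 := hspt.bj
          rw [ZeroMemClass.coe_zero, map_zero] at h1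
          simp at h1
        have h2 : b' ∈ supp (G i) := by
          have h3 := hspt.eq
          intro h4
          rw [h3, cst_mul_coeff] at h4
          have h5 : (1 - AddMonoidAlgebra.single b' ((e'⁻¹ : (RO O)ˣ) : RO O) :
              AO O (Ker (co phi i0))).coeff b' = -((e'⁻¹ : (RO O)ˣ) : RO O) := by
            rw [AddMonoidAlgebra.one_def]
            simp [Finsupp.single_apply, Ne.symm hb']
          rw [h5] at h4
          rcases mul_eq_zero.mp h4 with h6 | h6
          · exact hspt.u0.ne_zero h6
          · exact (e'⁻¹ : (RO O)ˣ).ne_zero (neg_eq_zero.mp h6)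
        rw [hbs i] at h2
        rcases h2 with h2 | h2
        · exact absurd h2 hb'
        · have h3 : b' = b i := h2
          rw [← h3]
          exact hspt.bj
      · intro k hk
        refine hspt.other k hk (b k) ?_
        rw [hbs k]; simp
  choose j hj using hex
  have hbmem : ∀ i, b i ∈ supp (G i) := fun i => by rw [hbs i]; simp
  have hpure : ∀ i, Pure phi S i0 (G i) → ∀ q ∈ OO phi S, phi (b i : L) q = 0 :=
    fun i hp q hq => hp (b i) (hbmem i) q hq
  -- the pure and the other indices
  set Pu : Finset (Fin n) := Finset.univ.filter fun i => Pure phi S i0 (G i) with hPu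
  set Np : Finset (Fin n) := Finset.univ.filter fun i => ¬ Pure phi S i0 (G i) with hNp
  have hmemP : ∀ i, i ∈ Pu ↔ Pure phi S i0 (G i) := fun i => by
    rw [hPu, Finset.mem_filter]; simp
  have hmemN : ∀ i, i ∈ Np ↔ ¬ Pure phi S i0 (G i) := fun i => by
    rw [hNp, Finset.mem_filter]; simp
  set PP : AO O (Ker (co phi i0)) := ∏ i ∈ Pu, G i with hPP
  set NN : AO O (Ker (co phi i0)) := ∏ i ∈ Np, G i with hNN
  have hVeq : cl (co phi i0) S h eta D = cst c * (PP * NN) := by
    rw [hF.eq, hPP, hNN, Finset.prod_filter_mul_prod_filter_not]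
  set sig : Ker (co phi i0) →+ ℤ := ∑ q ∈ OO phi S, co (phK phi (co phi i0)) q with hsig
  have hsigap : ∀ a : Ker (co phi i0), sig a = ∑ q ∈ OO phi S, phi (a : L) q := by
    intro a
    rw [hsig, AddMonoidHom.finset_sum_apply]
    rfl
  have hsigV : ∀ a ∈ supp (cl (co phi i0) S h eta D), 0 ≤ sig a := by
    intro a ha
    rw [hsigap]
    refine Finset.sum_nonneg fun q hq => ?_
    have h1 : phi (a : L) q = 0 ∨ phi (a : L) q = 1 := (hww a ha).1 q hq
    rcases h1 with h1 | h1 <;> omega
  have hsigN : ∀ i ∈ Np, 0 < sig (b i) := by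
    intro i hi
    rw [hsigap]
    obtain ⟨hjO, hj1, -⟩ := hj i ((hmemN i).mp hi)
    refine Finset.sum_pos' (fun q hq => ?_) ⟨j i, hjO, by rw [hj1]; omega⟩
    have h1 : phi (b i : L) q = 0 ∨ phi (b i : L) q = 1 := (hF.ww i (b i) (hbmem i)).1 q hq
    rcases h1 with h1 | h1 <;> omega
  have hsigP : ∀ i ∈ Pu, ∀ a ∈ supp (G i), sig a = 0 := by
    intro i hi a ha
    rw [hsigap]
    exact Finset.sum_eq_zero fun q hq => ((hmemP i).mp hi) a ha q hq
  have hsigPP := supp_prod_ker Pu G sig hsigP
  rw [← hPP] at hsigPP
  have hphiPP : ∀ a ∈ supp PP, ∀ q ∈ OO phi S, phi (a : L) q = 0 := by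
    intro a ha q hq
    exact supp_prod_ker Pu G (co (phK phi (co phi i0)) q)
      (fun i hi x hx => ((hmemP i).mp hi) x hx q hq) a ha
  obtain ⟨hN0, -, hN3⟩ := prod_two Np G b sig (fun i _ => hbs i) hsigN
  obtain ⟨hP0, hPt, hP3⟩ := prod_two Pu G b lam (fun i _ => hbs i) (fun i _ => hbl i)
  rw [← hNN] at hN0 hN3
  rw [← hPP] at hP0 hPt hP3
  have hVc : ∀ a : Ker (co phi i0), sig a = 0 →
      (cl (co phi i0) S h eta D).coeff a = c * (PP.coeff a * NN.coeff 0) := by
    intro a ha
    rw [hVeq, cst_mul_coeff, split sig PP NN hsigPP (fun x hx hx0 => (hN3 x hx).1 hx0) a ha]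
  have hsub : ∀ a ∈ supp PP, a ∈ supp (cl (co phi i0) S h eta D) := by
    intro a ha
    change (cl (co phi i0) S h eta D).coeff a ≠ 0
    rw [hVc a (hsigPP a ha)]
    exact mul_ne_zero hF.c0 (mul_ne_zero ha hN0)
  have hthinP : Thin (supp PP) := by
    refine hTh P (Ker (co phi i0)) (phK phi (co phi i0)) (II phi S i0) (OO phi S) (supp PP)
      hinj fun a ha => hww a (hsub a ha)
  have hposP : Pos lam PP := fun a ha ha0 => (hP3 a (Finsupp.mem_support_iff.mp ha)).1 ha0
  -- rays of the pure part
  have hray : ∀ x, Ray PP x → Ray (cl (co phi i0) S h eta D) x ∧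
      ∃ i, Pure phi S i0 (G i) ∧ x ∈ supp (G i) := by
    rintro x ⟨hx1, hx0, mu, hmu0, hmu⟩
    have hR : Ray (cl (co phi i0) S h eta D) x := by
      refine ⟨hsub x hx1, hx0, ?_⟩
      set N0 : ℤ := 1 + ∑ a ∈ (cl (co phi i0) S h eta D).coeff.support, |mu a| with hN0d
      refine ⟨mu + N0 • sig, ?_, ?_⟩
      · rw [AddMonoidHom.add_apply, AddMonoidHom.smul_apply, hmu0, hsigPP x hx1]
        simp
      · intro a ha ha0 hax
        rw [AddMonoidHom.add_apply, AddMonoidHom.smul_apply, smul_eq_mul]
        have h1 := hsigV a ha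
        have h2 : |mu a| ≤ ∑ a ∈ (cl (co phi i0) S h eta D).coeff.support, |mu a| :=
          Finset.single_le_sum (f := fun a => |mu a|) (fun a _ => abs_nonneg _)
            (Finsupp.mem_support_iff.mpr ha)
        have h3 := neg_abs_le (mu a)
        have h5 := abs_nonneg (mu a)
        by_cases h4 : sig a = 0
        · have h6 : a ∈ supp PP := by
            intro h7
            apply ha
            rw [hVc a h4, h7]
            simp
          have := hmu a h6 ha0 hax
          rw [h4]
          omega
        · have h6 : 1 ≤ sig a := by omega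
          have h7 : 0 ≤ N0 := by omega
          nlinarith
    refine ⟨hR, ?_⟩
    obtain ⟨i, hi⟩ := hRF O P L phi D S i0 eta h c n G hF x hR
    refine ⟨i, ?_, hi⟩
    by_contra hp
    obtain ⟨hjO, hj1, -⟩ := hj i hp
    have hi' : x ∈ ({0, b i} : Set (Ker (co phi i0))) := by rw [← hbs i]; exact hi
    rcases hi' with hi' | hi'
    · exact hx0 hi'
    · have h1 : x = b i := hi'
      have h2 := hphiPP x hx1 (j i) hjO
      rw [h1, hj1] at h2
      omega
  have hrayu : ∀ x y, Ray PP x → Ray PP y → x = y := by
    intro x y hx hy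
    obtain ⟨hx1, i, hi1, hi2⟩ := hray x hx
    obtain ⟨hy1, k, hk1, hk2⟩ := hray y hy
    exact hH O P L phi D S i0 eta h c n G hF i k x y (hs i) (hs k) hi1 hk1 hi2 hk2 hx1 hy1
  -- at most one pure factor
  have hcard : Pu.card ≤ 1 := by
    by_contra hc2
    have hne : Pu.Nonempty := by
      rw [Finset.nonempty_iff_ne_empty]
      intro h1
      rw [h1, Finset.card_empty] at hc2
      omega
    have hsumpos : 0 < lam (∑ i ∈ Pu, b i) := by
      rw [map_sum]
      exact Finset.sum_pos (fun i _ => hbl i) hne
    have hsum0 : ∑ i ∈ Pu, b i ≠ 0 := by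
      intro h1
      rw [h1, map_zero] at hsumpos
      omega
    obtain ⟨hspan, -, hexi⟩ := hRS O (Ker (co phi i0)) PP ⟨lam, hposP⟩ hthinP
    obtain ⟨x, hx⟩ := hexi ⟨0, hP0, _, hPt, Ne.symm hsum0⟩
    have hsupp : ∀ a ∈ supp PP, a ≠ 0 → a = x := by
      intro a ha ha0
      obtain ⟨m, hm, hma⟩ := hspan a ha ha0
      have h1 : m • a ∈ AddSubmonoid.closure {x} := by
        refine AddSubmonoid.closure_mono ?_ hma
        intro y hy
        exact hrayu y x hy hx
      obtain ⟨k, hk⟩ := AddSubmonoid.mem_closure_singleton.mp h1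
      have hla : 0 < lam a := (hP3 a ha).1 ha0
      have hk0 : 0 < k := by
        rcases Nat.eq_zero_or_pos k with h2 | h2
        · exfalso
          subst h2
          rw [zero_smul] at hk
          have h3 := congrArg lam hk
          rw [map_zero, map_nsmul, nsmul_eq_mul] at h3
          have : 0 < (m : ℤ) * lam a := mul_pos (by exact_mod_cast hm) hla
          omega
        · exact h2
      exact hthinP a ha x hx.1 m k hm hk0 hk.symm
    have hsumx : ∑ i ∈ Pu, b i = x := hsupp _ hPt hsum0
    have hxl : 0 < lam x := by rw [← hsumx]; exact hsumpos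
    have hbx : ∀ i ∈ Pu, b i = x := by
      intro i hi
      have hsplit : PP = G i * ∏ k ∈ Pu.erase i, G k := by
        rw [hPP, Finset.mul_prod_erase Pu G hi]
      obtain ⟨hE0, -, -⟩ := prod_two (Pu.erase i) G b lam (fun i _ => hbs i) (fun i _ => hbl i)
      have hGne : G i ≠ 0 := by
        intro h1
        have h2 := hbmem i
        rw [h1] at h2
        exact h2 rfl
      have hmz : ∀ mu : Ker (co phi i0) →+ ℤ, mu x = 0 → 0 ≤ mu (b i) := by
        intro mu hmu
        refine hMi O (Ker (co phi i0)) (G i) (∏ k ∈ Pu.erase i, G k) hGne hE0 mu 0 ?_ (b i)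
          (hbmem i)
        intro a ha
        rw [← hsplit] at ha
        by_cases ha0 : a = 0
        · rw [ha0, map_zero]
        · rw [hsupp a ha ha0, hmu]
      have hpar : ∀ kap : Ker (co phi i0) →+ ℤ, lam x * kap (b i) = kap x * lam (b i) := by
        intro kap
        have h1 := hmz (lam x • kap - kap x • lam) (by
          rw [AddMonoidHom.sub_apply, AddMonoidHom.smul_apply, AddMonoidHom.smul_apply,
            smul_eq_mul, smul_eq_mul]
          ring)
        have h2 := hmz (kap x • lam - lam x • kap) (by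
          rw [AddMonoidHom.sub_apply, AddMonoidHom.smul_apply, AddMonoidHom.smul_apply,
            smul_eq_mul, smul_eq_mul]
          ring)
        rw [AddMonoidHom.sub_apply, AddMonoidHom.smul_apply, AddMonoidHom.smul_apply,
            smul_eq_mul, smul_eq_mul] at h1 h2
        omega
      have hvec : lam x • b i = lam (b i) • x := by
        apply hinj
        funext q
        have h1 := hpar (co (phK phi (co phi i0)) q)
        have h2 : co (phK phi (co phi i0)) q (lam x • b i) =
            co (phK phi (co phi i0)) q (lam (b i) • x) := by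
          rw [map_zsmul, map_zsmul, smul_eq_mul, smul_eq_mul]
          linarith [mul_comm (co (phK phi (co phi i0)) q x) (lam (b i))]
        exact h2
      have hT : Thin ({x, b i} : Set (Ker (co phi i0))) := by
        refine hTh P (Ker (co phi i0)) (phK phi (co phi i0)) (II phi S i0) (OO phi S) _ hinj ?_
        rintro a (rfl | ha)
        · exact hww _ (hsub _ hx.1)
        · have ha' : a = b i := ha
          rw [ha']
          exact hF.ww i (b i) (hbmem i)
      obtain ⟨u1, hu1⟩ := Int.eq_ofNat_of_zero_le hxl.le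
      obtain ⟨u2, hu2⟩ := Int.eq_ofNat_of_zero_le (hbl i).le
      have hu1p : 0 < u1 := by omega
      have hu2p : 0 < u2 := by
        have := hbl i
        omega
      refine hT (b i) (by simp) x (by simp) u1 u2 hu1p hu2p ?_
      rw [hu1, hu2] at hvec
      simpa using hvec
    have hfin : lam (∑ i ∈ Pu, b i) = (Pu.card : ℤ) * lam x := by
      rw [map_sum, Finset.sum_congr rfl (fun i hi => by rw [hbx i hi]), Finset.sum_const,
        nsmul_eq_mul]
    rw [hsumx] at hfin
    have h1 : (2 : ℤ) ≤ Pu.card := by
      have : 2 ≤ Pu.card := by omega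
      exact_mod_cast this
    nlinarith
  have huniq : ∀ p q, Pure phi S i0 (G p) → Pure phi S i0 (G q) → p = q := fun p q hp hq =>
    Finset.card_le_one.mp hcard p ((hmemP p).mpr hp) q ((hmemP q).mpr hq)
  -- the port of the pure factor
  have hpp : ∀ p, ∃ g : Ker (co phi i0) →+ ℤ, Pure phi S i0 (G p) → g (b p) = 1 := by
    intro p
    by_cases hp : Pure phi S i0 (G p)
    · have h1 : ∃ q, phi (b p : L) q ≠ 0 := by
        by_contra h2
        push Not at h2
        apply hb0 p
        apply hinj
        funext q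
        change phi (b p : L) q = phi ((0 : Ker (co phi i0)) : L) q
        rw [h2 q, ZeroMemClass.coe_zero, map_zero]
        rfl
      obtain ⟨q, hq⟩ := h1
      have hw := hF.ww p (b p) (hbmem p)
      have hqI : q ∈ II phi S i0 := by
        by_contra h2
        by_cases h3 : q ∈ OO phi S
        · exact hq (hpure p hp q h3)
        · exact hq (hw.2.2 q h2 h3)
      have hval : phi (b p : L) q = 1 ∨ phi (b p : L) q = -1 := by
        rcases hw.2.1 with h2 | h2
        · rcases h2 q hqI with h3 | h3
          · exact absurd h3 hq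
          · exact Or.inl h3
        · rcases h2 q hqI with h3 | h3
          · exact absurd h3 hq
          · exact Or.inr h3
      rcases hval with h2 | h2
      · exact ⟨co (phK phi (co phi i0)) q, fun _ => h2⟩
      · refine ⟨-co (phK phi (co phi i0)) q, fun _ => ?_⟩
        rw [AddMonoidHom.neg_apply]
        change -(phi (b p : L) q) = 1
        rw [h2]
        norm_num
    · exact ⟨0, fun h => absurd h hp⟩
  choose g hg using hpp
  refine ⟨b, fun i => if Pure phi S i0 (G i) then
    g i - ∑ k ∈ Np, g i (b k) • co (phK phi (co phi i0)) (j k) else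
      co (phK phi (co phi i0)) (j i), e, hu, heq, ?_⟩
  have hjk : ∀ k ∈ Np, ∀ i, co (phK phi (co phi i0)) (j k) (b i) = if k = i then 1 else 0 := by
    intro k hk i
    obtain ⟨-, h1, h2⟩ := hj k ((hmemN k).mp hk)
    by_cases hki : k = i
    · subst hki
      rw [if_pos rfl]
      exact h1
    · rw [if_neg hki]
      exact h2 i (Ne.symm hki)
  intro i k
  change (if Pure phi S i0 (G i) then
    g i - ∑ k ∈ Np, g i (b k) • co (phK phi (co phi i0)) (j k) else
      co (phK phi (co phi i0)) (j i)) (b k) = _
  by_cases hp : Pure phi S i0 (G i)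
  · rw [if_pos hp, AddMonoidHom.sub_apply, AddMonoidHom.finset_sum_apply]
    have h1 : ∑ l ∈ Np, (g i (b l) • co (phK phi (co phi i0)) (j l)) (b k) =
        if k ∈ Np then g i (b k) else 0 := by
      rw [← Finset.sum_ite_eq' Np k (fun l => g i (b l))]
      refine Finset.sum_congr rfl fun l hl => ?_
      rw [AddMonoidHom.smul_apply, hjk l hl k, smul_eq_mul]
      by_cases h2 : l = k
      · simp [h2]
      · simp [h2]
    rw [h1]
    by_cases hk : Pure phi S i0 (G k)
    · have h2 := huniq i k hp hk
      subst h2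
      have h3 : i ∉ Np := fun h4 => (hmemN i).mp h4 hp
      rw [if_neg h3, if_pos rfl, hg i hp, sub_zero]
    · have h3 : k ∈ Np := (hmemN k).mpr hk
      have h4 : i ≠ k := by
        rintro rfl
        exact hk hp
      rw [if_pos h3, if_neg h4, sub_self]
  · rw [if_neg hp]
    exact hjk i ((hmemN i).mpr hp) k

end Pool.Agent.B5.H57.Dus

namespace Pool.Agent.B5.H57

/-- (DUS) if all factors are small, their exponents are independent. -/
theorem dus (hSm : SmallS) (hG0 : G0S) (hRF : RayFacS) (hRS : RaySpanS) (hTh : ThinS)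
    (hH : HS) (hMi : MinS) : DusS := Dus.dus' hSm hG0 hRF hRS hTh hH hMi

end Pool.Agent.B5.H57
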